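import Pool.Agent.Lib_helper39.FAN.Final

/-!
# `F`-anti-nilpotency does not localize

The ring is `R = (A + h A[y])_𝔫` with `A = 𝔽₂[s, t]`, `h = y³ + t y + s²` and
`𝔫 = (s, t) + h A[y]`; the prime ideal is the one generated by `P = (s) + h A[y]`. The class of
`y / s` in `H²_P(R_P)` shows the failure for `R_P`.
-/

namespace Pool.Agent.Results.MP_abdb7d_ag.NotLocalize

open Pool.Agent.Lib_helper39.FAN.Pub

/-- There are an `F`-finite Noetherian local ring `R` of characteristic `2` which is
`F`-anti-nilpotent and a prime ideal `P` of `R` such that `R_P` is not `F`-anti-nilpotent. -/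
theorem result :
    ∃ (R : Type) (_ : CommRing R) (_ : IsLocalRing R) (_ : IsNoetherianRing R) (_ : CharP R 2),
      (frobenius R 2).Finite ∧ IsFAntiNilpotent 2 R ∧
      ∃ (P : Ideal R) (_ : P.IsPrime) (_ : CharP (Localization.AtPrime P) 2),
        ¬ IsFAntiNilpotent 2 (Localization.AtPrime P) :=
  Pool.Agent.Lib_helper39.FAN.final

end Pool.Agent.Results.MP_abdb7d_ag.NotLocalize
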